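import Pool.Agent.Q44.WK.Stm

/-!
# Project WK (helper44), job IN: `S_int`. Author of this file: helper149.
-/

set_option autoImplicit false

namespace Pool.Agent.Q149.WK.IN

open MvPolynomial Pool.Agent.Q44.WK

section hom

variable {F E : Type} [CommRing F] [CommRing E] (σ : F →+* E) (D : Dat F)

theorem lin_map (x y : V F) : (D.map σ).lin (fun i => σ (x i)) (fun i => σ (y i)) = σ (D.lin x y) := by
  simp only [Dat.lin, Dat.map, map_sum, map_mul]

theorem quad_map (x y : V F) : (D.map σ).quad (fun i => σ (x i)) (fun i => σ (y i)) = σ (D.quad x y) := by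
  simp only [Dat.quad, Dat.map, map_sum, map_mul]

theorem lam_map (x : V F) (j : Fin 3) : (D.map σ).lam (fun i => σ (x i)) j = σ (D.lam x j) := by
  simp only [Dat.lam, Dat.map, map_sum, map_mul]

theorem sym_map (x : V F) (k l : Fin 3) : (D.map σ).sym (fun i => σ (x i)) k l = σ (D.sym x k l) := by
  simp only [Dat.sym, Dat.map, map_sum, map_mul, map_add]

theorem cr_map (v : V F) (a k : Fin 3) : Dat.cr (fun i => σ (v i)) a k = σ (Dat.cr v a k) := by
  fin_cases a <;> fin_cases k <;> simp [Dat.cr]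

theorem G_map (x : V F) (a b : Fin 3) : (D.map σ).G (fun i => σ (x i)) a b = σ (D.G x a b) := by
  unfold Dat.G
  have h1 : (D.map σ).lam (fun i => σ (x i)) = fun j => σ (D.lam x j) := funext (lam_map σ D x)
  rw [h1]
  simp only [map_sum, map_mul, cr_map, sym_map]

end hom

section field

variable {K : Type} [Field K] (D : Dat K)

theorem ideal_eval {x y : V K} (hl : D.lin x y = 0) (hq : D.quad x y = 0) {p : MvPolynomial (Fin 3 ⊕ Fin 3) K}
    (hp : p ∈ D.ideal) : eval (Sum.elim x y) p = 0 := by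
  obtain ⟨n, hn⟩ := hp
  have h1 : Ideal.span {D.linP, D.quadP} ≤ RingHom.ker (eval (Sum.elim x y)) := by
    rw [Ideal.span_le]
    rintro q (rfl | rfl)
    · rw [SetLike.mem_coe, RingHom.mem_ker]
      simp only [Dat.linP, map_sum, map_mul, eval_C, eval_X, Sum.elim_inl, Sum.elim_inr]
      exact hl
    · rw [SetLike.mem_coe, RingHom.mem_ker]
      simp only [Dat.quadP, map_sum, map_mul, eval_C, eval_X, Sum.elim_inl, Sum.elim_inr]
      exact hq
  have h2 := h1 hn
  rw [RingHom.mem_ker, map_pow] at h2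
  have hn0 : n ≠ 0 := by
    rintro rfl
    rw [pow_zero] at h2
    exact one_ne_zero h2
  exact (pow_eq_zero_iff hn0).1 h2

theorem lin_smul (s t : K) (x y : V K) : D.lin (s • x) (t • y) = s * t * D.lin x y := by
  simp only [Dat.lin, Pi.smul_apply, smul_eq_mul, Finset.mul_sum]
  refine Finset.sum_congr rfl fun i _ => Finset.sum_congr rfl fun j _ => ?_
  ring

theorem quad_smul (s t : K) (x y : V K) : D.quad (s • x) (t • y) = s ^ 2 * t ^ 2 * D.quad x y := by
  simp only [Dat.quad, Pi.smul_apply, smul_eq_mul, Finset.mul_sum]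
  refine Finset.sum_congr rfl fun i _ => Finset.sum_congr rfl fun j _ => Finset.sum_congr rfl fun k _ =>
    Finset.sum_congr rfl fun l _ => ?_
  ring

end field

/-- the identity with the linear form `m` -/
theorem quad_id (h : S_id) {F : Type} [Field F] (D : Dat F) (x y m : V F) (hy : y ≠ 0) (hl : D.lin x y = 0)
    (hq : D.quad x y = 0) (a : Fin 3) :
    (∑ b, ∑ c, m b * m c * D.G x b c) * y a ^ 2 - 2 * (∑ b, m b * y b) * (∑ b, m b * D.G x a b) * y a +
      (∑ b, m b * y b) ^ 2 * D.G x a a = 0 := by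
  have h1 := h F D x y hy hl hq a
  have h2 : ∑ b, ∑ c, m b * m c * (y a ^ 2 * D.G x b c - y a * y c * D.G x a b - y a * y b * D.G x a c +
      y b * y c * D.G x a a) = 0 := by
    refine Finset.sum_eq_zero fun b _ => Finset.sum_eq_zero fun c _ => ?_
    rw [h1 b c, mul_zero]
  rw [← h2]
  simp only [Fin.sum_univ_three]
  ring

theorem eval_smul_homog {K : Type} [Field K] {d : ℕ} {h : MvPolynomial (Fin 3) K} (hh : h.IsHomogeneous d)
    (s : K) (x : V K) : eval (s • x) h = s ^ d * eval x h := by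
  rw [eval_eq', eval_eq', Finset.mul_sum]
  refine Finset.sum_congr rfl fun u hu => ?_
  have h1 : ∑ i, u i = d := by
    have h2 := hh (mem_support_iff.1 hu)
    rw [Finsupp.weight_apply, Finsupp.sum_fintype _ _ (fun i => by simp)] at h2
    simpa using h2
  have h3 : ∏ i, (s • x) i ^ u i = s ^ d * ∏ i, x i ^ u i := by
    simp only [Pi.smul_apply, smul_eq_mul, mul_pow, Finset.prod_mul_distrib]
    rw [Finset.prod_pow_eq_pow_sum, h1]
  rw [h3]
  ring

/-- a polynomial which vanishes on a line through the origin: all its homogeneous components vanish there -/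
theorem comp_zero {K : Type} [Field K] [Infinite K] (h : MvPolynomial (Fin 3) K) (x : V K)
    (h0 : ∀ s : K, eval (s • x) h = 0) (d : ℕ) : eval x (homogeneousComponent d h) = 0 := by
  by_cases hd : h.totalDegree < d
  · rw [homogeneousComponent_eq_zero _ _ hd, map_zero]
  · push Not at hd
    obtain ⟨Q, hQ⟩ : ∃ Q : Polynomial K, Q = ∑ i ∈ Finset.range (h.totalDegree + 1),
      Polynomial.C (eval x (homogeneousComponent i h)) * Polynomial.X ^ i := ⟨_, rfl⟩
    have hQ0 : Q = 0 := by
      refine Polynomial.zero_of_eval_zero _ fun s => ?_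
      have h1 := h0 s
      conv at h1 =>
        lhs
        rw [← sum_homogeneousComponent h, map_sum]
      rw [hQ, Polynomial.eval_finsetSum, ← h1]
      refine Finset.sum_congr rfl fun i _ => ?_
      rw [eval_smul_homog (homogeneousComponent_isHomogeneous i h)]
      simp only [Polynomial.eval_mul, Polynomial.eval_C, Polynomial.eval_pow, Polynomial.eval_X]
      ring
    have h2 : Q.coeff d = eval x (homogeneousComponent d h) := by
      rw [hQ, Polynomial.finsetSum_coeff]
      simp only [Polynomial.coeff_C_mul_X_pow]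
      rw [Finset.sum_ite_eq, if_pos (Finset.mem_range.2 (by omega))]
    rw [← h2, hQ0, Polynomial.coeff_zero]

theorem main (h : S_id) : S_int := by
  intro K _ _ D hprime x₀ y₀ hon f hf m hm
  have : D.ideal.IsPrime := hprime
  obtain ⟨hx₀, hy₀, hl₀, hq₀⟩ := hon
  -- the coordinate ring
  let R := MvPolynomial (Fin 3 ⊕ Fin 3) K ⧸ D.ideal
  let q : MvPolynomial (Fin 3 ⊕ Fin 3) K →+* R := Ideal.Quotient.mk D.ideal
  let Fr := FractionRing R
  let θ : MvPolynomial (Fin 3 ⊕ Fin 3) K →+* Fr := (algebraMap R Fr).comp q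
  let ρ : MvPolynomial (Fin 3) K →+* R := q.comp (rename (Sum.inl : Fin 3 → Fin 3 ⊕ Fin 3)).toRingHom
  let τ : MvPolynomial (Fin 3) K →+* Fr := (algebraMap R Fr).comp ρ
  have hinj : Function.Injective (algebraMap R Fr) := IsFractionRing.injective R Fr
  have hσ : θ.comp C = τ.comp C := by
    ext c
    simp [θ, τ, ρ]
  have hτX : ∀ i, τ (X i) = θ (X (Sum.inl i)) := fun i => by simp [θ, τ, ρ]
  let σ : K →+* Fr := θ.comp C
  have hlin : (D.map σ).lin (fun i => θ (X (Sum.inl i))) (fun i => θ (X (Sum.inr i))) = 0 := by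
    have h1 := lin_map θ (D.map C) (fun i => X (Sum.inl i)) (fun i => X (Sum.inr i))
    have h2 : (D.map (C : K →+* MvPolynomial (Fin 3 ⊕ Fin 3) K)).lin (fun i => X (Sum.inl i))
      (fun i => X (Sum.inr i)) = D.linP := rfl
    have h3 : q D.linP = 0 := Ideal.Quotient.eq_zero_iff_mem.2 (Ideal.le_radical (Ideal.subset_span (by simp)))
    rw [h2] at h1
    refine h1.trans ?_
    change algebraMap R Fr (q D.linP) = 0
    rw [h3, map_zero]
  have hquad : (D.map σ).quad (fun i => θ (X (Sum.inl i))) (fun i => θ (X (Sum.inr i))) = 0 := by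
    have h1 := quad_map θ (D.map C) (fun i => X (Sum.inl i)) (fun i => X (Sum.inr i))
    have h2 : (D.map (C : K →+* MvPolynomial (Fin 3 ⊕ Fin 3) K)).quad (fun i => X (Sum.inl i))
      (fun i => X (Sum.inr i)) = D.quadP := rfl
    have h3 : q D.quadP = 0 := Ideal.Quotient.eq_zero_iff_mem.2 (Ideal.le_radical (Ideal.subset_span (by simp)))
    rw [h2] at h1
    refine h1.trans ?_
    change algebraMap R Fr (q D.quadP) = 0
    rw [h3, map_zero]
  have hy : (fun i => θ (X (Sum.inr i))) ≠ (0 : V Fr) := by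
    intro h0
    apply hy₀
    funext i
    have h1 := congrFun h0 i
    have h2 : q (X (Sum.inr i)) = 0 := by
      apply hinj
      rw [map_zero]
      exact h1
    have h3 := ideal_eval D hl₀ hq₀ (Ideal.Quotient.eq_zero_iff_mem.1 h2)
    simpa using h3
  have hG : ∀ a b, (D.map σ).G (fun i => θ (X (Sum.inl i))) a b = τ (D.GP a b) := by
    intro a b
    have h1 := G_map τ (D.map C) X a b
    have h2 : (D.map (C : K →+* MvPolynomial (Fin 3) K)).map τ = D.map (τ.comp C) := rfl
    rw [h2, ← hσ] at h1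
    simp only [hτX] at h1
    exact h1
  -- the identity in the coordinate ring
  let ℓ : R := ∑ b, q (C (m b)) * q (X (Sum.inr b))
  let g : R := ρ (D.gP m)
  let Ma : Fin 3 → R := fun a => ∑ b, q (C (m b)) * ρ (D.GP a b)
  have hid : ∀ a, g * q (X (Sum.inr a)) ^ 2 - 2 * ℓ * Ma a * q (X (Sum.inr a)) + ℓ ^ 2 * ρ (D.GP a a) = 0 := by
    intro a
    have h1 := quad_id h (D.map σ) (fun i => θ (X (Sum.inl i))) (fun i => θ (X (Sum.inr i)))
      (fun b => σ (m b)) hy hlin hquad a
    apply hinj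
    rw [map_zero, ← h1]
    simp only [hG, map_add, map_sub, map_mul, map_pow, map_ofNat, g, ℓ, Ma, map_sum, Dat.gP]
    have e1 : ∀ b c : Fin 3, algebraMap R Fr (ρ (C (m b))) = σ (m b) := fun b _ => by simp [σ, θ, ρ]
    simp only [e1 _ 0]
    rfl
  -- integrality over `K[x][t]`
  let φ : Polynomial (MvPolynomial (Fin 3) K) →+* R := Polynomial.eval₂RingHom ρ ℓ
  have hφC : ∀ c, φ (Polynomial.C c) = ρ c := fun c => by simp [φ]
  have hφX : φ Polynomial.X = ℓ := by simp [φ]
  have hcoef : ∀ c : K, q (C c) = φ (Polynomial.C (C c)) := fun c => by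
    rw [hφC]
    simp [ρ]
  have hgint : φ.IsIntegralElem g := by
    have : g = φ (Polynomial.C (D.gP m)) := by rw [hφC]
    rw [this]
    exact φ.isIntegralElem_map
  have hxint : ∀ i, φ.IsIntegralElem (q (X (Sum.inl i))) := by
    intro i
    have : q (X (Sum.inl i)) = φ (Polynomial.C (X i)) := by
      rw [hφC]
      simp [ρ]
    rw [this]
    exact φ.isIntegralElem_map
  have hcint : ∀ c : K, φ.IsIntegralElem (q (C c)) := fun c => by
    rw [hcoef]
    exact φ.isIntegralElem_map
  have hyint : ∀ a, φ.IsIntegralElem (g * q (X (Sum.inr a))) := by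
    intro a
    have hMa : Ma a = φ (∑ b, Polynomial.C (C (m b)) * Polynomial.C (D.GP a b)) := by
      simp only [Ma, map_sum, map_mul, hφC, hcoef]
    obtain ⟨c1, hc1⟩ : ∃ c1, φ c1 = -(2 * ℓ * Ma a) :=
      ⟨-(2 * Polynomial.X * ∑ b, Polynomial.C (C (m b)) * Polynomial.C (D.GP a b)), by
        rw [map_neg, map_mul, map_mul, map_ofNat, hφX, hMa]⟩
    obtain ⟨c0, hc0⟩ : ∃ c0, φ c0 = g * ℓ ^ 2 * ρ (D.GP a a) :=
      ⟨Polynomial.C (D.gP m) * Polynomial.X ^ 2 * Polynomial.C (D.GP a a), by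
        rw [map_mul, map_mul, map_pow, hφX, hφC, hφC]⟩
    refine ⟨Polynomial.X ^ 2 + (Polynomial.C c1 * Polynomial.X + Polynomial.C c0), ?_, ?_⟩
    · refine Polynomial.monic_X_pow_add ?_
      refine lt_of_le_of_lt Polynomial.degree_linear_le (by norm_num)
    · have h1 := hid a
      simp only [Polynomial.eval₂_add, Polynomial.eval₂_mul, Polynomial.eval₂_pow, Polynomial.eval₂_X,
        Polynomial.eval₂_C]
      rw [hc1, hc0]
      linear_combination g * h1
  have hint : ∀ p : MvPolynomial (Fin 3 ⊕ Fin 3) K, ∃ N : ℕ, ∀ n, N ≤ n → φ.IsIntegralElem (g ^ n * q p) := by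
    have hgp : ∀ n : ℕ, φ.IsIntegralElem (g ^ n) := by
      intro n
      have : g ^ n = φ (Polynomial.C (D.gP m) ^ n) := by rw [map_pow, hφC]
      rw [this]
      exact φ.isIntegralElem_map
    intro p
    induction p using MvPolynomial.induction_on with
    | C a => exact ⟨0, fun n _ => (hgp n).mul φ (hcint a)⟩
    | add p₁ p₂ h₁ h₂ =>
      obtain ⟨N₁, h₁⟩ := h₁
      obtain ⟨N₂, h₂⟩ := h₂
      refine ⟨max N₁ N₂, fun n hn => ?_⟩
      rw [map_add, mul_add]
      exact (h₁ n (le_trans (le_max_left _ _) hn)).add φ (h₂ n (le_trans (le_max_right _ _) hn))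
    | mul_X p i hp =>
      obtain ⟨N, hN⟩ := hp
      cases i with
      | inl i =>
        refine ⟨N, fun n hn => ?_⟩
        rw [map_mul, ← mul_assoc]
        exact (hN n hn).mul φ (hxint i)
      | inr i =>
        refine ⟨N + 1, fun n hn => ?_⟩
        obtain ⟨n, rfl⟩ : ∃ k, n = k + 1 := ⟨n - 1, by omega⟩
        have h1 : g ^ (n + 1) * q (p * X (Sum.inr i)) = (g ^ n * q p) * (g * q (X (Sum.inr i))) := by
          rw [map_mul]
          ring
        rw [h1]
        exact (hN n (by omega)).mul φ (hyint i)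
  obtain ⟨N, hN⟩ := hint f
  obtain ⟨P, hPm, hP0⟩ := hN N le_rfl
  have hg0 : g ≠ 0 := fun h0 => hm (Ideal.Quotient.eq_zero_iff_mem.1 h0)
  have hf0 : q f ≠ 0 := fun h0 => hf (Ideal.Quotient.eq_zero_iff_mem.1 h0)
  have hr0 : g ^ N * q f ≠ 0 := mul_ne_zero (pow_ne_zero _ hg0) hf0
  obtain ⟨i, hi0, hiI⟩ := Ideal.exists_coeff_ne_zero_mem_comap_of_root_mem hr0
    (I := Ideal.span {q f}) (Ideal.mul_mem_left _ _ (Ideal.mem_span_singleton_self _)) hPm.ne_zero hP0
  obtain ⟨s, hs⟩ : ∃ s, s = P.coeff i := ⟨_, rfl⟩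
  rw [← hs] at hi0 hiI
  rw [Ideal.mem_comap, Ideal.mem_span_singleton] at hiI
  obtain ⟨w, hw⟩ := hiI
  obtain ⟨w', rfl⟩ := Ideal.Quotient.mk_surjective w
  obtain ⟨L, hL⟩ : ∃ L : MvPolynomial (Fin 3 ⊕ Fin 3) K, L = ∑ b, C (m b) * X (Sum.inr b) := ⟨_, rfl⟩
  obtain ⟨st, hst⟩ : ∃ st, st = Polynomial.eval₂ (rename (Sum.inl : Fin 3 → Fin 3 ⊕ Fin 3)).toRingHom L s :=
    ⟨_, rfl⟩
  have hqst : q st = φ s := by
    rw [hst, Polynomial.hom_eval₂]
    have : q L = ℓ := by
      rw [hL]
      simp only [map_sum, map_mul, ℓ]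
    rw [this]
    rfl
  have hmem : st - f * w' ∈ D.ideal := by
    rw [← Ideal.Quotient.eq_zero_iff_mem, map_sub, map_mul]
    change q st - q f * q w' = 0
    rw [hqst, hw, sub_self]
  obtain ⟨j, hj⟩ : ∃ j, s.coeff j ≠ 0 := by
    by_contra hcon
    push Not at hcon
    exact hi0 (Polynomial.ext fun j => by rw [hcon j, Polynomial.coeff_zero])
  obtain ⟨d, hd⟩ : ∃ d, homogeneousComponent d (s.coeff j) ≠ 0 := by
    by_contra hcon
    push Not at hcon
    apply hj
    rw [← sum_homogeneousComponent (s.coeff j)]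
    exact Finset.sum_eq_zero fun d _ => hcon d
  refine ⟨d, homogeneousComponent d (s.coeff j), homogeneousComponent_isHomogeneous _ _, hd, ?_⟩
  rintro x y ⟨hx, hy', hl, hq⟩ hvan hly
  refine comp_zero _ x (fun s' => ?_) d
  obtain ⟨Q, hQ⟩ : ∃ Q : Polynomial K, Q = s.map (eval (s' • x)) := ⟨_, rfl⟩
  have hQ0 : Q = 0 := by
    refine Polynomial.zero_of_eval_zero _ fun t => ?_
    have h1 := ideal_eval D (x := s' • x) (y := (t / ∑ a, m a * y a) • y) (by rw [lin_smul, hl, mul_zero])
      (by rw [quad_smul, hq, mul_zero]) hmem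
    rw [map_sub, map_mul, hvan, zero_mul, sub_zero, hst, Polynomial.hom_eval₂] at h1
    have h2 : eval (Sum.elim (s' • x) ((t / ∑ a, m a * y a) • y)) L = t := by
      rw [hL]
      simp only [map_sum, map_mul, eval_C, eval_X, Sum.elim_inr, Pi.smul_apply, smul_eq_mul]
      calc ∑ b, m b * (t / (∑ a, m a * y a) * y b) = t / (∑ a, m a * y a) * ∑ b, m b * y b := by
            rw [Finset.mul_sum]
            exact Finset.sum_congr rfl fun b _ => by ring
        _ = t := div_mul_cancel₀ t hly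
    rw [h2] at h1
    rw [hQ, Polynomial.eval_map, ← h1]
    congr 1
    ext c
    · simp
    · simp
  have h3 : Q.coeff j = eval (s' • x) (s.coeff j) := by rw [hQ, Polynomial.coeff_map]
  rw [← h3, hQ0, Polynomial.coeff_zero]

end Pool.Agent.Q149.WK.IN
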