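import Pool.Agent.Q44.WK.Stm
import Pool.Agent.Q149.WK.IN

/-!
# Project WK (helper44), job CM: `S_cmp`. Author of this file: helper149.
-/

set_option autoImplicit false

namespace Pool.Agent.Q149.WK.CM

open MvPolynomial Height Filter Pool.Agent.Q44.WK

/-! ### Heights -/

section height

variable {K : Type} [Field K] [NumberField K]

theorem logHeight_le_sum (x : V K) : logHeight x ≤ ∑ c, logHeight₁ (x c) := by
  have h1 := logHeight_fun_prod_eq (K := K) (α := Fin 3) (ι := fun _ => Fin 2) (x := fun a => ![x a, 1])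
    (fun a h0 => one_ne_zero (congrFun h0 1))
  have h2 : x = (fun I : Fin 3 → Fin 2 => ∏ a, (![x a, 1] : Fin 2 → K) (I a)) ∘
      fun c => fun a => if a = c then 0 else 1 := by
    funext c
    simp only [Function.comp]
    rw [Finset.prod_eq_single c]
    · simp
    · intro a _ hac
      simp [hac]
    · intro h
      exact absurd (Finset.mem_univ c) h
  calc logHeight x ≤ logHeight (fun I : Fin 3 → Fin 2 => ∏ a, (![x a, 1] : Fin 2 → K) (I a)) := by
        conv_lhs => rw [h2]
        exact logHeight_comp_le _ _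
    _ = ∑ a, logHeight (![x a, 1] : Fin 2 → K) := h1
    _ = ∑ c, logHeight₁ (x c) := Finset.sum_congr rfl fun c _ => (logHeight₁_eq_logHeight _).symm

theorem logHeight₁_div_le (x : V K) (a b : Fin 3) : logHeight₁ (x a / x b) ≤ logHeight x := by
  rw [logHeight₁_div_eq_logHeight]
  have : (![x a, x b] : Fin 2 → K) = x ∘ ![a, b] := by
    funext i
    fin_cases i <;> rfl
  rw [this]
  exact logHeight_comp_le _ _

theorem logHeight_div (x : V K) (d : Fin 3) (hd : x d ≠ 0) : logHeight (fun c => x c / x d) = logHeight x := by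
  have : (fun c => x c / x d) = (x d)⁻¹ • x := by
    funext c
    simp only [Pi.smul_apply, smul_eq_mul]
    rw [div_eq_inv_mul]
  rw [this]
  exact logHeight_smul_eq_logHeight x (inv_ne_zero hd)

end height

/-! ### Homomorphisms from the ring of sequences -/

section germ

variable {K : Type} [Field K] {Ω : Type} [Field Ω] (Φ : (ℕ → K) →+* Ω)

/-- the constants -/
def con (K : Type) [Field K] : K →+* (ℕ → K) := Pi.constRingHom ℕ K

theorem lin_seq (D : Dat K) (X Y : V (ℕ → K)) :
    (D.map (Φ.comp (con K))).lin (fun i => Φ (X i)) (fun i => Φ (Y i)) =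
      Φ (fun n => D.lin (fun i => X i n) (fun i => Y i n)) := by
  have h1 := IN.lin_map Φ (D.map (con K)) X Y
  refine h1.trans (congrArg Φ ?_)
  funext n
  exact (IN.lin_map (Pi.evalRingHom (fun _ : ℕ => K) n) (D.map (con K)) X Y).symm

theorem quad_seq (D : Dat K) (X Y : V (ℕ → K)) :
    (D.map (Φ.comp (con K))).quad (fun i => Φ (X i)) (fun i => Φ (Y i)) =
      Φ (fun n => D.quad (fun i => X i n) (fun i => Y i n)) := by
  have h1 := IN.quad_map Φ (D.map (con K)) X Y
  refine h1.trans (congrArg Φ ?_)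
  funext n
  exact (IN.quad_map (Pi.evalRingHom (fun _ : ℕ => K) n) (D.map (con K)) X Y).symm

theorem G_seq (D : Dat K) (X : V (ℕ → K)) (a b : Fin 3) :
    (D.map (Φ.comp (con K))).G (fun i => Φ (X i)) a b = Φ (fun n => D.G (fun i => X i n) a b) := by
  have h1 := IN.G_map Φ (D.map (con K)) X a b
  refine h1.trans (congrArg Φ ?_)
  funext n
  exact (IN.G_map (Pi.evalRingHom (fun _ : ℕ => K) n) (D.map (con K)) X a b).symm

theorem alt_map {F E : Type} [CommRing F] [CommRing E] (σ : F →+* E) (D : Dat F) (k : ℕ) :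
    (D.map σ).alt k = (D.alt k).map σ := by
  unfold Dat.alt
  split_ifs <;> rfl

theorem eval_seq (A : MvPolynomial (Fin 3) K) (X : V (ℕ → K)) :
    eval₂ (Φ.comp (con K)) (fun i => Φ (X i)) A = Φ (fun n => eval (fun i => X i n) A) := by
  induction A using MvPolynomial.induction_on with
  | C a =>
    rw [eval₂_C]
    simp only [eval_C]
    rfl
  | add p q hp hq =>
    rw [eval₂_add, hp, hq, ← map_add]
    congr 1
    funext n
    simp
  | mul_X p i hp =>
    rw [eval₂_mul, eval₂_X, hp, ← map_mul]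
    congr 1
    funext n
    simp

theorem poly_seq (P : Polynomial K) (u : ℕ → K) :
    P.eval₂ (Φ.comp (con K)) (Φ u) = Φ (fun n => P.eval (u n)) := by
  induction P using Polynomial.induction_on' with
  | add p q hp hq =>
    rw [Polynomial.eval₂_add, hp, hq, ← map_add]
    congr 1
    funext n
    simp
  | monomial k a =>
    rw [Polynomial.eval₂_monomial, ← map_pow]
    simp only [Polynomial.eval_monomial]
    change Φ (con K a) * Φ (u ^ k) = _
    rw [← map_mul]
    rfl

variable (φ : Ultrafilter ℕ) (hφ : ∀ f : ℕ → K, Φ f = 0 ↔ ∀ᶠ n in (φ : Filter ℕ), f n = 0)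

include hφ

theorem eq_iff (f g : ℕ → K) : Φ f = Φ g ↔ ∀ᶠ n in (φ : Filter ℕ), f n = g n := by
  rw [← sub_eq_zero, ← map_sub, hφ]
  simp only [Pi.sub_apply, sub_eq_zero]

theorem ne_iff (f : ℕ → K) : Φ f ≠ 0 ↔ ∀ᶠ n in (φ : Filter ℕ), f n ≠ 0 := by
  rw [Ne, hφ, ← Ultrafilter.eventually_not]

theorem div_seq (f g : ℕ → K) (hg : Φ g ≠ 0) : Φ f / Φ g = Φ (fun n => f n / g n) := by
  rw [div_eq_iff hg, ← map_mul, eq_iff Φ φ hφ]
  filter_upwards [(ne_iff Φ φ hφ g).1 hg] with n hn
  simp only [Pi.mul_apply]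
  rw [div_mul_cancel₀ _ hn]

end germ

/-! ### The main argument, for an abstract ultrapower -/

theorem seq_mod (m n k : ℕ) : (2 * m * n + k) % 2 = k % 2 := by
  rw [mul_assoc, Nat.mul_add_mod]

theorem core (hroot : S_root) (hfld : S_fld) (K : Type) [Field K] [NumberField K] (D : Dat K) (z : ℕ → V K)
    (hz : D.Chain z) (α : ℕ) (A : MvPolynomial (Fin 3) K) (hA : A.IsHomogeneous α) (hA0 : A ≠ 0) (m : ℕ)
    (hAz : ∀ j, eval (z (2 * m * j)) A = 0)
    (htop : Tendsto (fun j : ℕ => logHeight (z (2 * m * j))) atTop atTop) (k : ℕ)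
    (Ω : Type) [Field Ω] (Φ : (ℕ → K) →+* Ω) (φ : Ultrafilter ℕ)
    (hφ : ∀ f : ℕ → K, Φ f = 0 ↔ ∀ᶠ n in (φ : Filter ℕ), f n = 0) (hφt : (φ : Filter ℕ) ≤ atTop) :
    ∃ C : ℝ, ∀ᶠ n in (φ : Filter ℕ),
      logHeight (z (2 * m * (n + k))) ≤ 16 * α * logHeight (z (2 * m * n)) + C := by
  classical
  let _ : Algebra K Ω := (Φ.comp (con K)).toAlgebra
  have halg : algebraMap K Ω = Φ.comp (con K) := rfl
  obtain ⟨ζ, hζ⟩ : ∃ ζ : ℕ → V Ω, ζ = fun j a => Φ (fun n => z (2 * m * n + j) a) := ⟨_, rfl⟩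
  have hζ' : ∀ j, ζ j = fun a => Φ (fun n => z (2 * m * n + j) a) := fun j => by rw [hζ]
  have hne : ∀ j, ζ j ≠ 0 := by
    intro j h0
    have h1 : ∀ a, ∀ᶠ n in (φ : Filter ℕ), z (2 * m * n + j) a = 0 := by
      intro a
      have := congrFun h0 a
      rw [hζ'] at this
      exact (hφ _).1 this
    have h2 := eventually_all.2 h1
    obtain ⟨n, hn⟩ := h2.exists
    exact (hz (2 * m * n + j)).1.1 (funext hn)
  -- the chain over `Ω`
  have hchain : (D.map (algebraMap K Ω)).Chain ζ := by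
    intro j
    rw [halg, alt_map, alt_map]
    have hmod : ∀ n, D.alt (2 * m * n + j) = D.alt j := fun n => by
      unfold Dat.alt
      rw [seq_mod]
    have hmod' : ∀ n, D.alt (2 * m * n + j + 1) = D.alt (j + 1) := fun n => by
      unfold Dat.alt
      rw [show 2 * m * n + j + 1 = 2 * m * n + (j + 1) by ring, seq_mod]
    refine ⟨⟨hne j, hne (j + 1), ?_, ?_⟩, ?_⟩
    · rw [hζ' j, hζ' (j + 1), lin_seq, ← map_zero Φ]
      refine congrArg Φ ?_
      funext n
      have h1 := (hz (2 * m * n + j)).1.2.2.1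
      rw [hmod] at h1
      exact h1
    · rw [hζ' j, hζ' (j + 1), quad_seq, ← map_zero Φ]
      refine congrArg Φ ?_
      funext n
      have h1 := (hz (2 * m * n + j)).1.2.2.2
      rw [hmod] at h1
      exact h1
    · have h1 : ∀ n, ∃ c : K, c ≠ 0 ∧ ∀ a b, z (2 * m * n + j) a * z (2 * m * n + (j + 2)) b +
          z (2 * m * n + j) b * z (2 * m * n + (j + 2)) a = c * (D.alt (j + 1)).G (z (2 * m * n + (j + 1))) a b := by
        intro n
        have h2 := (hz (2 * m * n + j)).2
        rw [hmod'] at h2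
        exact h2
      choose c hc0 hc using h1
      refine ⟨Φ c, ?_, fun a b => ?_⟩
      · rw [ne_iff Φ φ hφ]
        exact Eventually.of_forall hc0
      · rw [hζ' j, hζ' (j + 1), hζ' (j + 2), G_seq]
        simp only
        rw [← map_mul, ← map_mul, ← map_add, ← map_mul]
        refine congrArg Φ ?_
        funext n
        exact hc n a b
  -- coordinates
  obtain ⟨b, hb⟩ : ∃ b, ζ 0 b ≠ 0 := by
    by_contra hcon
    push Not at hcon
    exact hne 0 (funext hcon)
  have hbz : ∀ᶠ n in (φ : Filter ℕ), z (2 * m * n) b ≠ 0 := by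
    have := hb
    rw [hζ' 0] at this
    exact (ne_iff Φ φ hφ _).1 this
  have hu : ∀ a, ζ 0 a / ζ 0 b = Φ (fun n => z (2 * m * n) a / z (2 * m * n) b) := by
    intro a
    have := hb
    rw [hζ' 0] at this ⊢
    exact div_seq Φ φ hφ _ _ this
  -- one of them is transcendental
  obtain ⟨a, ha⟩ : ∃ a, ∀ P : Polynomial K, P ≠ 0 → P.eval₂ (Φ.comp (con K)) (ζ 0 a / ζ 0 b) ≠ 0 := by
    by_contra hcon
    push Not at hcon
    choose P hP0 hP using hcon
    have h1 : ∀ a, ∀ᶠ n in (φ : Filter ℕ), z (2 * m * n) a / z (2 * m * n) b ∈ (P a).roots.toFinset := by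
      intro a
      have h2 := hP a
      rw [hu, poly_seq, hφ] at h2
      filter_upwards [h2] with n hn
      rw [Multiset.mem_toFinset, Polynomial.mem_roots (hP0 a)]
      exact hn
    have h2 := eventually_all.2 h1
    obtain ⟨S, hS⟩ : ∃ S : Finset (V K), S = Fintype.piFinset fun a => (P a).roots.toFinset := ⟨_, rfl⟩
    obtain ⟨B, hB⟩ : ∃ B : ℝ, ∀ v ∈ S, logHeight v ≤ B :=
      ⟨∑ v ∈ S, logHeight v, fun v hv => Finset.single_le_sum (fun v _ => logHeight_nonneg v) hv⟩
    have h3 : ∀ᶠ n in (φ : Filter ℕ), B < logHeight (z (2 * m * n)) := hφt (htop.eventually_gt_atTop B)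
    obtain ⟨n, hn1, hn2, hn3⟩ := (h2.and (h3.and hbz)).exists
    have h4 := hB (fun c => z (2 * m * n) c / z (2 * m * n) b) (by
      rw [hS, Fintype.mem_piFinset]
      exact hn1)
    rw [logHeight_div _ _ hn3] at h4
    linarith
  obtain ⟨d, hd⟩ : ∃ d, ζ (2 * m * k) d ≠ 0 := by
    by_contra hcon
    push Not at hcon
    exact hne _ (funext hcon)
  have hdz : ∀ᶠ n in (φ : Filter ℕ), z (2 * m * n + 2 * m * k) d ≠ 0 := by
    have := hd
    rw [hζ'] at this
    exact (ne_iff Φ φ hφ _).1 this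
  have hAζ : aeval (ζ (2 * m * k)) A = 0 := by
    rw [aeval_def, halg, hζ', eval_seq, ← map_zero Φ]
    refine congrArg Φ ?_
    funext n
    have h1 := hAz (n + k)
    rw [mul_add] at h1
    exact h1
  -- the relations
  have hkey : ∀ c, ∃ C : ℝ, ∀ᶠ n in (φ : Filter ℕ),
      logHeight₁ (z (2 * m * n + 2 * m * k) c / z (2 * m * n + 2 * m * k) d) ≤
        ((8 * α : ℕ) : ℝ) * logHeight₁ (z (2 * m * n) a / z (2 * m * n) b) + C := by
    intro c
    obtain ⟨p, hp0, hp⟩ := hfld K Ω D ζ hchain α A hA hA0 (2 * m * k) (by rw [mul_assoc]; exact Nat.mul_mod_right 2 _)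
      hAζ a b c d hb hd
    have hw : ζ (2 * m * k) c / ζ (2 * m * k) d =
        Φ (fun n => z (2 * m * n + 2 * m * k) c / z (2 * m * n + 2 * m * k) d) := by
      have := hd
      rw [hζ'] at this ⊢
      exact div_seq Φ φ hφ _ _ this
    obtain ⟨N, hN⟩ : ∃ N : ℕ, ∀ i, (p i).natDegree ≤ N :=
      ⟨∑ i, (p i).natDegree, fun i => Finset.single_le_sum (f := fun i => (p i).natDegree) (fun _ _ => Nat.zero_le _)
        (Finset.mem_univ i)⟩
    obtain ⟨q, hq⟩ : ∃ q : ℕ → Polynomial K, q = fun e => ∑ i : Fin (8 * α + 1),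
      Polynomial.C ((p i).coeff e) * Polynomial.X ^ (i : ℕ) := ⟨_, rfl⟩
    have hqcoeff : ∀ e (i : Fin (8 * α + 1)), (q e).coeff i = (p i).coeff e := by
      intro e i
      rw [hq]
      simp only [Polynomial.finsetSum_coeff, Polynomial.coeff_C_mul_X_pow]
      rw [Finset.sum_eq_single i]
      · simp
      · intro j _ hji
        rw [if_neg]
        intro h
        exact hji (Fin.ext h.symm)
      · intro h
        exact absurd (Finset.mem_univ i) h
    have hqdeg : ∀ e, (q e).natDegree ≤ 8 * α := by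
      intro e
      rw [hq]
      refine Polynomial.natDegree_sum_le_of_forall_le _ _ fun i _ => ?_
      refine (Polynomial.natDegree_C_mul_X_pow_le _ _).trans ?_
      have := i.isLt
      omega
    have hqN : ∀ e, N < e → q e = 0 := by
      intro e he
      rw [hq]
      refine Finset.sum_eq_zero fun i _ => ?_
      rw [Polynomial.coeff_eq_zero_of_natDegree_lt (lt_of_le_of_lt (hN i) he), map_zero, zero_mul]
    have hqne : ((Finset.range (N + 1)).filter fun e => q e ≠ 0).Nonempty := by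
      obtain ⟨i, hi⟩ : ∃ i, p i ≠ 0 := by
        by_contra hcon
        push Not at hcon
        exact hp0 (funext hcon)
      obtain ⟨e, he⟩ : ∃ e, (p i).coeff e ≠ 0 := by
        by_contra hcon
        push Not at hcon
        exact hi (Polynomial.ext fun e => by rw [hcon e, Polynomial.coeff_zero])
      have h1 : q e ≠ 0 := by
        intro h0
        apply he
        rw [← hqcoeff, h0, Polynomial.coeff_zero]
      refine ⟨e, Finset.mem_filter.2 ⟨Finset.mem_range.2 ?_, h1⟩⟩
      by_contra hcon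
      exact h1 (hqN e (by omega))
    obtain ⟨E, hE⟩ : ∃ E, E = ((Finset.range (N + 1)).filter fun e => q e ≠ 0).max' hqne := ⟨_, rfl⟩
    have hEmem : E ∈ (Finset.range (N + 1)).filter fun e => q e ≠ 0 := by
      rw [hE]
      exact Finset.max'_mem _ _
    have hqE : q E ≠ 0 := (Finset.mem_filter.1 hEmem).2
    have hEN : E ≤ N := by
      have := Finset.mem_range.1 (Finset.mem_filter.1 hEmem).1
      omega
    have hEmax : ∀ e, E < e → q e = 0 := by
      intro e he
      by_contra hcon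
      by_cases heN : N < e
      · exact hcon (hqN e heN)
      · have h1 : e ≤ E := by
          rw [hE]
          exact Finset.le_max' _ _ (Finset.mem_filter.2 ⟨Finset.mem_range.2 (by omega), hcon⟩)
        omega
    obtain ⟨C, hC⟩ := hroot K (8 * α) E (fun e => q e) (fun e => hqdeg e)
    refine ⟨C, ?_⟩
    have h1 := ha (q E) hqE
    rw [hu, poly_seq, ne_iff Φ φ hφ] at h1
    have h2 : ∀ᶠ n in (φ : Filter ℕ), ∑ i : Fin (8 * α + 1),
        (p i).eval (z (2 * m * n + 2 * m * k) c / z (2 * m * n + 2 * m * k) d) *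
          (z (2 * m * n) a / z (2 * m * n) b) ^ (i : ℕ) = 0 := by
      rw [hw, hu] at hp
      simp only [Polynomial.aeval_def, halg, poly_seq, ← map_pow, ← map_mul, ← map_sum] at hp
      have h3 := (hφ _).1 hp
      filter_upwards [h3] with n hn
      rw [← hn]
      simp [Finset.sum_apply]
    filter_upwards [h1, h2] with n hn1 hn2
    refine hC _ _ hn1 ?_
    rw [← hn2]
    obtain ⟨w, hw'⟩ : ∃ w, w = z (2 * m * n + 2 * m * k) c / z (2 * m * n + 2 * m * k) d := ⟨_, rfl⟩
    obtain ⟨u, hu'⟩ : ∃ u, u = z (2 * m * n) a / z (2 * m * n) b := ⟨_, rfl⟩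
    rw [← hw', ← hu']
    calc ∑ e : Fin (E + 1), (q e).eval u * w ^ (e : ℕ) = ∑ e ∈ Finset.range (E + 1), (q e).eval u * w ^ e :=
          Fin.sum_univ_eq_sum_range (fun e => (q e).eval u * w ^ e) (E + 1)
      _ = ∑ e ∈ Finset.range (N + 1), (q e).eval u * w ^ e := by
          refine Finset.sum_subset (Finset.range_mono (by omega)) fun e _ he => ?_
          rw [hEmax e (by
            rw [Finset.mem_range] at he
            omega), Polynomial.eval_zero, zero_mul]
      _ = ∑ e ∈ Finset.range (N + 1), ∑ i : Fin (8 * α + 1), (p i).coeff e * w ^ e * u ^ (i : ℕ) := by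
          refine Finset.sum_congr rfl fun e _ => ?_
          rw [hq]
          simp only [Polynomial.eval_finsetSum, Polynomial.eval_mul, Polynomial.eval_C, Polynomial.eval_pow,
            Polynomial.eval_X, Finset.sum_mul]
          exact Finset.sum_congr rfl fun i _ => by ring
      _ = ∑ i : Fin (8 * α + 1), ∑ e ∈ Finset.range (N + 1), (p i).coeff e * w ^ e * u ^ (i : ℕ) := Finset.sum_comm
      _ = ∑ i : Fin (8 * α + 1), (p i).eval w * u ^ (i : ℕ) := by
          refine Finset.sum_congr rfl fun i _ => ?_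
          rw [Polynomial.eval_eq_sum_range' (lt_of_le_of_lt (hN i) (Nat.lt_succ_self N)), Finset.sum_mul]
  choose C hC using hkey
  refine ⟨∑ c ∈ Finset.univ.erase d, C c, ?_⟩
  filter_upwards [eventually_all.2 hC, hdz] with n hn hnd
  have e1 : 2 * m * (n + k) = 2 * m * n + 2 * m * k := by ring
  rw [e1, ← logHeight_div _ d hnd]
  refine (logHeight_le_sum _).trans ?_
  rw [← Finset.add_sum_erase _ _ (Finset.mem_univ d), div_self hnd, logHeight₁_one, zero_add]
  have h1 : ∑ c ∈ Finset.univ.erase d, logHeight₁ (z (2 * m * n + 2 * m * k) c / z (2 * m * n + 2 * m * k) d) ≤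
      ∑ c ∈ Finset.univ.erase d, (((8 * α : ℕ) : ℝ) * logHeight (z (2 * m * n)) + C c) := by
    refine Finset.sum_le_sum fun c _ => (hn c).trans ?_
    have h2 := mul_le_mul_of_nonneg_left (logHeight₁_div_le (z (2 * m * n)) a b) (Nat.cast_nonneg (α := ℝ) (8 * α))
    linarith
  refine h1.trans (le_of_eq ?_)
  rw [Finset.sum_add_distrib, Finset.sum_const, Finset.card_erase_of_mem (Finset.mem_univ d), Finset.card_univ,
    Fintype.card_fin, nsmul_eq_mul]
  push_cast
  ring

theorem main (h1 : S_root) (h2 : S_fld) : S_cmp := by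
  intro K _ _ D z hz α A hA hA0 m _ hAz htop k
  have hφ : ∀ f : ℕ → K, (Germ.coeRingHom ((hyperfilter ℕ : Ultrafilter ℕ) : Filter ℕ)) f = 0 ↔
      ∀ᶠ n in ((hyperfilter ℕ : Ultrafilter ℕ) : Filter ℕ), f n = 0 := fun f => Germ.coe_eq
  have hle : ((hyperfilter ℕ : Ultrafilter ℕ) : Filter ℕ) ≤ atTop := Nat.hyperfilter_le_atTop
  obtain ⟨C, hC⟩ := core h1 h2 K D z hz α A hA hA0 m hAz htop k
    (Germ ((hyperfilter ℕ : Ultrafilter ℕ) : Filter ℕ) K) (Germ.coeRingHom _) (hyperfilter ℕ) hφ hle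
  exact ⟨C, hC.frequently.filter_mono hle⟩

end Pool.Agent.Q149.WK.CM
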